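import Mathlib

set_option autoImplicit false

open Set Matrix

namespace Pool.Agent.Results.MP_5c9c6a_an.Counter

/-- The partial derivative. -/
noncomputable def pd {n : ℕ} (f : (Fin n → ℝ) → ℝ) (i : Fin n) (x : Fin n → ℝ) : ℝ :=
  deriv (fun t => f (Function.update x i t)) (x i)

/-- The gradient. -/
noncomputable def grad {n : ℕ} (f : (Fin n → ℝ) → ℝ) (x : Fin n → ℝ) : Fin n → ℝ :=
  fun i => pd f i x

/-- The Hessian matrix. -/
noncomputable def hess {n : ℕ} (f : (Fin n → ℝ) → ℝ) (x : Fin n → ℝ) : Matrix (Fin n) (Fin n) ℝ :=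
  of fun i j => pd (pd f j) i x

/-- The convexity levels. -/
def levels {n : ℕ} (f : (Fin n → ℝ) → ℝ) : Set ℝ :=
  {q | (⨅ x, (f x : EReal)) ≤ q ∧ ∀ r ≥ q, ConvexOn ℝ univ fun x => max r (f x)}

noncomputable def F (x : Fin 2 → ℝ) : ℝ := (x 0 ^ 2 + x 1 ^ 2 - 1) ^ 2 / 4 + x 1 ^ 2 + 6 / 5 * x 1

lemma dpoly (g : ℝ → ℝ) (a b c d e t : ℝ) (h : ∀ s, g s = a + b * s + c * s ^ 2 + d * s ^ 3 + e * s ^ 4) :
    deriv g t = b + 2 * c * t + 3 * d * t ^ 2 + 4 * e * t ^ 3 := by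
  rw [funext h]
  have := ((((hasDerivAt_const t a).add ((hasDerivAt_id t).const_mul b)).add
    ((hasDerivAt_pow 2 t).const_mul c)).add ((hasDerivAt_pow 3 t).const_mul d)).add
    ((hasDerivAt_pow 4 t).const_mul e)
  refine (this.deriv).trans ?_
  norm_num
  ring

lemma p0 : pd F 0 = fun x => x 0 * (x 0 ^ 2 + x 1 ^ 2 - 1) := by
  ext x
  rw [pd, dpoly _ ((x 1 ^ 2 - 1) ^ 2 / 4 + x 1 ^ 2 + 6 / 5 * x 1) 0 ((x 1 ^ 2 - 1) / 2) 0 (1 / 4)]
  · ring
  · intro s; simp [F]; ring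

lemma p1 : pd F 1 = fun x => x 1 * (x 0 ^ 2 + x 1 ^ 2 + 1) + 6 / 5 := by
  ext x
  rw [pd, dpoly _ ((x 0 ^ 2 - 1) ^ 2 / 4) (6 / 5) ((x 0 ^ 2 + 1) / 2) 0 (1 / 4)]
  · ring
  · intro s; simp [F]; ring

lemma hF (x : Fin 2 → ℝ) : hess F x =
    !![3 * x 0 ^ 2 + x 1 ^ 2 - 1, 2 * x 0 * x 1; 2 * x 0 * x 1, x 0 ^ 2 + 3 * x 1 ^ 2 + 1] := by
  ext i j
  fin_cases i <;> fin_cases j <;> simp only [hess, of_apply, Fin.zero_eta, Fin.mk_one, p0, p1]
  · rw [pd, dpoly _ 0 (x 1 ^ 2 - 1) 0 1 0]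
    · simp; ring
    · intro s; simp; ring
  · rw [pd, dpoly _ (x 1 * (x 1 ^ 2 + 1) + 6 / 5) 0 (x 1) 0 0]
    · simp; ring
    · intro s; simp; ring
  · rw [pd, dpoly _ (x 0 * (x 0 ^ 2 - 1)) 0 (x 0) 0 0]
    · simp
    · intro s; simp; ring
  · rw [pd, dpoly _ (6 / 5) (x 0 ^ 2 + 1) 0 1 0]
    · simp; ring
    · intro s; simp; ring

lemma quad (a b u v : ℝ) (h1 : 1 ≤ a ^ 2 + b ^ 2) (h2 : 1 < a ^ 2 + b ^ 2 ∨ a ≠ 0)
    (h : u ≠ 0 ∨ v ≠ 0) : 0 < (a ^ 2 + b ^ 2 - 1) * (u ^ 2 + v ^ 2) + 2 * (a * u + b * v) ^ 2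
      + 2 * v ^ 2 := by
  have h3 : 0 < u ^ 2 + v ^ 2 := by rcases h with h | h <;> positivity
  have h4 := mul_nonneg (sub_nonneg.2 h1) h3.le
  rcases h2 with h2 | h2
  · have := mul_pos (sub_pos.2 h2) h3
    positivity
  · by_cases hv : v = 0
    · have hu : u ≠ 0 := by tauto
      subst hv
      have : 0 < (a * u + b * 0) ^ 2 := by simp only [mul_zero, add_zero]; positivity
      linarith
    · positivity

lemma posdef (x : Fin 2 → ℝ) (h1 : 1 ≤ x 0 ^ 2 + x 1 ^ 2) (h2 : 1 < x 0 ^ 2 + x 1 ^ 2 ∨ x 0 ≠ 0) :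
    (hess F x).PosDef := by
  rw [hF]
  refine PosDef.of_dotProduct_mulVec_pos ?_ fun w hw => ?_
  · ext i j
    fin_cases i <;> fin_cases j <;> simp
  · have := quad (x 0) (x 1) (w 0) (w 1) h1 h2 (by
      by_contra hh
      push Not at hh
      exact hw (by ext i; fin_cases i <;> simp [hh.1, hh.2]))
    simp [dotProduct, mulVec, Fin.sum_univ_two]
    linarith

lemma inside (x : Fin 2 → ℝ) (h : x 0 ^ 2 + x 1 ^ 2 ≤ 1) : F x ≤ 1 + 6 / 5 * x 1 ∧ x 1 ≤ 1 := by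
  unfold F
  constructor <;> nlinarith [sq_nonneg (x 0), sq_nonneg (x 1)]

lemma conv (r : ℝ) (hr : 11 / 5 ≤ r) : ConvexOn ℝ univ fun x => max r (F x) := by
  have c0 : ∀ i : Fin 2, ConvexOn ℝ univ fun x : Fin 2 → ℝ => x i ^ 2 := fun i =>
    (Even.convexOn_pow (𝕜 := ℝ) even_two).comp_linearMap
      (LinearMap.proj (R := ℝ) (φ := fun _ : Fin 2 => ℝ) i)
  have c1 : ConvexOn ℝ univ fun x : Fin 2 → ℝ => max (x 0 ^ 2 + x 1 ^ 2 - 1) 0 :=
    (((c0 0).add (c0 1)).add_const (-1)).sup (convexOn_const 0 convex_univ)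
  have c2 := (c1.pow (fun x _ => le_max_right _ _) 2).smul (c := 1 / 4) (by norm_num)
  have c3 : ConvexOn ℝ univ fun x : Fin 2 → ℝ => 6 / 5 * x 1 :=
    ((6 / 5 : ℝ) • LinearMap.proj (R := ℝ) (φ := fun _ : Fin 2 => ℝ) 1).convexOn convex_univ
  have c4 := (convexOn_const r convex_univ).sup ((c2.add (c0 1)).add c3)
  refine c4.congr fun x _ => Eq.symm ?_
  simp only [Pi.sup_apply, Pi.add_apply, Pi.pow_apply, smul_eq_mul]
  rcases le_total (x 0 ^ 2 + x 1 ^ 2) 1 with h | h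
  · have := inside x h
    rw [max_eq_right (sub_nonpos.2 h), max_eq_left (by linarith),
      max_eq_left (by nlinarith [sq_nonneg (x 0)])]
  · rw [max_eq_left (sub_nonneg.2 h), F]
    congr 1
    ring

lemma crit (x : Fin 2 → ℝ) (h : grad F x = 0) :
    x 0 * (x 0 ^ 2 + x 1 ^ 2 - 1) = 0 ∧ x 1 * (x 0 ^ 2 + x 1 ^ 2 + 1) + 6 / 5 = 0 ∧
      x 1 < 0 ∧ x 0 ^ 2 + x 1 ^ 2 ≤ 1 := by
  have h0 := congrFun h 0
  have h1 := congrFun h 1
  simp only [grad, p0, p1, Pi.zero_apply] at h0 h1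
  have h2 : x 1 < 0 := by
    by_contra hh
    have := mul_nonneg (not_lt.1 hh) (by positivity : 0 ≤ x 0 ^ 2 + x 1 ^ 2 + 1)
    linarith
  refine ⟨h0, h1, h2, ?_⟩
  rcases mul_eq_zero.1 h0 with h | h
  · rw [h] at h1 ⊢
    by_contra hh
    have : x 1 < -1 := by nlinarith
    nlinarith
  · linarith

lemma bdd (s : Set (Fin 2 → ℝ)) (h : ∀ x ∈ s, x 0 ^ 2 + x 1 ^ 2 ≤ 1) : Bornology.IsBounded s := by
  refine (Metric.isBounded_closedBall (x := 0) (r := 1)).subset fun x hx => ?_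
  rw [mem_closedBall_zero_iff, pi_norm_le_iff_of_nonneg zero_le_one]
  have := h x hx
  intro i
  rw [Real.norm_eq_abs, ← sq_le_one_iff_abs_le_one]
  fin_cases i <;> simp only [Fin.zero_eta, Fin.mk_one] <;> nlinarith [sq_nonneg (x 0), sq_nonneg (x 1)]

lemma notconv (g : ℝ → ℝ) (y : ℝ) (hy : y ^ 2 < 1)
    (hg : g (y ^ 2 + 6 / 5 * y) < g ((y ^ 2 - 1) ^ 2 / 4 + y ^ 2 + 6 / 5 * y)) :
    ¬ ConvexOn ℝ univ fun x => g (F x) := by
  intro h
  have := h.2 (mem_univ ![√(1 - y ^ 2), y]) (mem_univ ![-√(1 - y ^ 2), y])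
    (show (0 : ℝ) ≤ 1 / 2 by norm_num) (show (0 : ℝ) ≤ 1 / 2 by norm_num) (by norm_num)
  have e : (1 / 2 : ℝ) • ![√(1 - y ^ 2), y] + (1 / 2 : ℝ) • ![-√(1 - y ^ 2), y] = ![0, y] := by
    ext i
    fin_cases i <;> simp
    ring
  rw [e] at this
  simp [F, Real.sq_sqrt (sub_pos.2 hy).le] at this
  linarith

theorem result : ∃ (f : (Fin 2 → ℝ) → ℝ) (s : ℝ), ContDiff ℝ 2 f ∧ ¬ ConvexOn ℝ univ f ∧
    (levels f).Nonempty ∧ IsGLB (levels f) s ∧ (∀ p, grad f p = 0 → IsUnit (hess f p)) ∧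
    Bornology.IsBounded {p | grad f p = 0} ∧ Bornology.IsBounded {x | ¬ (hess f x).PosDef} ∧
    s ∈ range f ∧ (∀ x, f x = s → grad f x ≠ 0) ∧ (∀ x, s < f x → (hess f x).PosDef) ∧
    ∃ x ∈ {z | (hess f z).PosDef ∧ f z ≤ s}, ∃ y ∈ connectedComponentIn
      {z | (hess f z).PosDef ∧ f z ≤ s} x, x ≠ y ∧ grad f x = grad f y := by
  have hq : F ![0, 1] = 11 / 5 := by norm_num [F]
  have hl : (11 / 5 : ℝ) ∈ levels F := ⟨hq ▸ iInf_le _ _, conv⟩
  refine ⟨F, 11 / 5, by unfold F; fun_prop, notconv id 0 (by norm_num) (by norm_num), ⟨_, hl⟩,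
    IsLeast.isGLB ⟨hl, fun q hq' => ?_⟩, fun p hp => ?_, bdd _ fun x hx => (crit x hx).2.2.2,
    bdd _ fun x hx => ?_, ⟨_, hq⟩, fun x hx h => ?_, fun x hx => ?_, ?_⟩
  · by_contra hh
    push Not at hh
    have d0 : 0 < min 1 ((11 / 5 - q) / 4) := lt_min one_pos (by linarith)
    have d1 := min_le_left 1 ((11 / 5 - q) / 4)
    have d2 := min_le_right 1 ((11 / 5 - q) / 4)
    generalize min 1 ((11 / 5 - q) / 4) = δ at *
    have hy : (1 - δ) ^ 2 < 1 := by nlinarith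
    refine notconv (max q) (1 - δ) hy ?_ (hq'.2 q le_rfl)
    have : 0 < ((1 - δ) ^ 2 - 1) ^ 2 := by have := (sub_neg.2 hy).ne; positivity
    rw [max_eq_right (by nlinarith), max_eq_right (by nlinarith)]
    linarith
  · obtain ⟨h0, h1, h2, h3⟩ := crit p hp
    rw [isUnit_iff_isUnit_det, isUnit_iff_ne_zero]
    by_cases h : p 0 = 0
    · rw [hF, det_fin_two_of, h]
      rw [h] at h1
      have : p 1 ^ 2 - 1 ≠ 0 := fun h4 => by
        have : p 1 = -1 := by nlinarith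
        rw [this] at h1
        norm_num at h1
      have h5 : 3 * p 1 ^ 2 + 1 ≠ 0 := by positivity
      convert mul_ne_zero this h5 using 1
      ring
    · exact (posdef p (by linarith [(mul_eq_zero.1 h0).resolve_left h]) (Or.inr h)).det_pos.ne'
  · by_contra hh
    exact hx (posdef x (not_le.1 hh).le (Or.inl (not_le.1 hh)))
  · obtain ⟨-, -, h2, h3⟩ := crit x h
    linarith [(inside x h3).1]
  · have : 1 < x 0 ^ 2 + x 1 ^ 2 := by
      by_contra hh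
      have := inside x (not_lt.1 hh)
      linarith
    exact posdef x this.le (Or.inl this)
  · set γ : ℝ → Fin 2 → ℝ := fun t => ![t, t ^ 2 - 31 / 25] with hγ
    have hc : Continuous γ := by
      refine continuous_pi fun i => ?_
      fin_cases i <;> simp [hγ] <;> fun_prop
    have hsub : γ '' Icc (-4 / 5) (4 / 5) ⊆ {z | (hess F z).PosDef ∧ F z ≤ 11 / 5} := by
      rintro _ ⟨t, ht, rfl⟩
      have h1 : t ^ 2 ≤ 16 / 25 := by nlinarith [ht.1, ht.2]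
      have h0 := sq_nonneg t
      refine ⟨posdef _ ?_ ?_, ?_⟩
      · simp only [hγ, cons_val_zero, cons_val_one]
        nlinarith
      · by_cases h : t = 0
        · left; simp only [hγ, h, cons_val_zero, cons_val_one]; norm_num
        · right; simpa [hγ] using h
      · simp only [hγ, F, cons_val_zero, cons_val_one]
        generalize t ^ 2 = u at *
        have a1 : 0 ≤ u + (u - 31 / 25) ^ 2 - 1 := by nlinarith
        have a2 : u + (u - 31 / 25) ^ 2 - 1 ≤ 1 := by nlinarith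
        nlinarith
    have m1 : γ (-4 / 5) ∈ γ '' Icc (-4 / 5) (4 / 5) := ⟨_, ⟨le_rfl, by norm_num⟩, rfl⟩
    have m2 : γ (4 / 5) ∈ γ '' Icc (-4 / 5) (4 / 5) := ⟨_, ⟨by norm_num, le_rfl⟩, rfl⟩
    refine ⟨_, hsub m1, _, (isPreconnected_Icc.image _ hc.continuousOn).subset_connectedComponentIn
      m1 hsub m2, fun h => ?_, ?_⟩
    · have := congrFun h 0
      norm_num [hγ] at this
    · ext i
      fin_cases i <;> norm_num [grad, p0, p1, hγ]

end Pool.Agent.Results.MP_5c9c6a_an.Counter
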